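import Pool.Agent.KS6_91.TB.Outs

/-!
# The bracket detects the trivial knotoid among the knotoids with all crossings in a three-strand box

Diagrams (library module `Pool.Graph.R_seed8.H891R2.Jones.Diagram`): `Diagram P` (oriented diagrams with
marked points `P`), `Diagram.bracket` (the state sum `⟨D⟩`, `A = T 1`; circles and intervals are counted),
`Diagram.fPoly` (the normalised bracket `(-A^{-3})^{w(D)} ⟨D⟩`), `Outer m` (the part of a diagram outside a
box through which `m` strands run; the flags `up` orient the strands at the lower side of the box, they do
not matter for the bracket).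

Braid words (library modules `W639.RB.Defs`, `Y463.SK.Defs`): `Letter 3 = Bool × Fin 2` (the letters
`σ_i^{±1}`), `dia O w` (the diagram with the braid word `w` in the box of `O`; the first letter is the
lowest crossing).

Modules `Pool.Agent.KS6_91.TB.*`: `B3` is the braid group on three strands (a `PresentedGroup`;
`σ₁ = σ 0`, `σ₂ = σ 1`, `σ₁ σ₂ σ₁ = σ₂ σ₁ σ₂`), `Δ = σ₁ σ₂ σ₁`, `braid w` is the element of `B3` given by
the word `w`; `IsMono p`: the Laurent polynomial `p` is `A^n` or `-A^n` for an integer `n`.

Consider a planar outside of the box without crossings, in which two of the six ends of the strands are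
the tail and the head of the knotoid and the other four are joined in pairs by arcs.  There are 30 of
them; for 15 of them the arcs separate the tail from the head, and these are, up to the symmetries of the
box, the following five.  (The other 15 give knotoids of knot type.)

* `spiral`: the upper ends of the strands `0`, `1` are joined to the lower ends of the strands `1`, `2`.
  `Slide`: a crossing `σ₂` at the lower side of the box slides along the two arcs and becomes a crossing
  `σ₁` at the upper side (a planar isotopy of the diagram): `σ₂ g` is replaced by `g σ₁`.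
* `hooks`: tail and head are the ends of the middle strand; the other two lower ends and the other two
  upper ends are joined.  `Eight g`: `g` is one of the braids `σ₁^{±1}`, `σ₂^{±1}`, `(σ₁ σ₂⁻¹)^{±1}`,
  `(σ₂⁻¹ σ₁)^{±1}`.
* `loops`: the lower end of strand `0` is the tail, the upper end of strand `1` the head, the lower end
  of strand `1` is joined to the upper end of strand `0`, and the ends of strand `2` are joined.
* `capHook`: the lower end of strand `0` is the tail and the other two lower ends are joined, the upper
  end of strand `1` is the head and the other two upper ends are joined.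
* `capTurn`: the lower ends of the strands `0`, `2` are the tail and the head, the lower end of strand `1`
  is joined to the upper end of strand `2`, and the other two upper ends are joined.

Remark (not part of the theorem): all braids found below give visibly the trivial knotoid.  For the spiral
this is the sequence of slides; for `σ₁^k σ₂^{±1} σ₁^{-k}` in `loops` remove the kink formed by strand `2`
and cancel; for the powers of `Δ` next to a cap remove kinks and pull back the finger which ends with the
cap; the eight diagrams with `hooks` have at most two crossings.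
-/

set_option autoImplicit false

namespace Pool.Agent.Results.MP_79b4ff_gt.ThreeStrandBox

open LaurentPolynomial Pool.Agent.H891R2.Jones Pool.Agent.W639.RB Pool.Agent.Y463.SK
  Pool.Agent.KS6_91.TB

/-- Let `w` be a braid word on three strands.

* In the spiral the normalised bracket is `1` if and only if the braid of `w` can be changed into the
  trivial braid by slides (so that the knotoid is trivial), and this happens exactly for the braids
  `σ₂^k σ₁^{-k}`, `k ∈ ℤ`.  The same braids are characterised by `⟨K⟩ = ± A^n`.
* Two hooks: `⟨K⟩ = ± A^n` if and only if the braid is one of the eight braids of `Eight`.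
* Two loops: `⟨K⟩ = ± A^n` if and only if the braid is `σ₁^k σ₂^{±1} σ₁^{-k}` for some `k ∈ ℤ`.
* Cap and hook: `⟨K⟩ = ± A^n` if and only if the braid is `σ₂^k Δ^n` for some `k, n ∈ ℤ`.
* Cap and turn: `⟨K⟩ = ± A^n` if and only if the braid is `Δ^n σ₁^k` for some `k, n ∈ ℤ`.
* In every diagram the condition `⟨K⟩ = ± A^n` follows from `f_K = 1`. -/
theorem result (w : List (Letter 3)) (up : Fin 3 → Bool) :
    ((dia (spiral fun _ => true) w).fPoly = 1 ↔ Relation.EqvGen Slide (braid w) 1) ∧
    ((dia (spiral fun _ => true) w).fPoly = 1 ↔ ∃ k : ℤ, braid w = σ 1 ^ k * σ 0 ^ (-k)) ∧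
    (IsMono (dia (spiral up) w).bracket ↔ ∃ k : ℤ, braid w = σ 1 ^ k * σ 0 ^ (-k)) ∧
    (IsMono (dia (hooks up) w).bracket ↔ Eight (braid w)) ∧
    (IsMono (dia (loops up) w).bracket ↔
      ∃ k s : ℤ, (s = 1 ∨ s = -1) ∧ braid w = σ 0 ^ k * σ 1 ^ s * σ 0 ^ (-k)) ∧
    (IsMono (dia (capHook up) w).bracket ↔ ∃ k n : ℤ, braid w = σ 1 ^ k * Δ ^ n) ∧
    (IsMono (dia (capTurn up) w).bracket ↔ ∃ k n : ℤ, braid w = Δ ^ n * σ 0 ^ k) ∧
    (∀ (P : Type) (D : Diagram P), D.fPoly = 1 → IsMono D.bracket) := by
  have hw := letters_lt w
  have hb := toB_braid w
  refine ⟨?_, f_spiral w, ?_, ?_, ?_, ?_, ?_, fun P D => mono_of_fPoly D⟩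
  · rw [f_spiral, slide_iff]
  · rw [← hb]; exact main_spiral up _ hw
  · rw [← hb]; exact main_hooks up _ hw
  · rw [← hb]; exact main_loop up _ hw
  · rw [← hb]; exact main_cap up _ hw
  · rw [← hb]; exact main_turn up _ hw

end Pool.Agent.Results.MP_79b4ff_gt.ThreeStrandBox
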